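import Pool.Agent.W844.GP.Defs2

/-! Project GP part 2: the expected maximal number of large weights on a path. -/

set_option autoImplicit false

open Finset MeasureTheory ProbabilityTheory Filter Topology
open scoped ENNReal

namespace Pool.Agent.W45.GQ

open Pool.Agent.W844.VG (V stp nm box mem_box card_box)
open Pool.Agent.W844.GP

variable {d : ℕ}

/-- the event of `S_G` -/
def Ev (d : ℕ) (s : ℝ) (n m : ℕ) : Set (V d → ℝ) :=
  {w | ∃ l : List (V d), l.length = n ∧ IsP (0 :: l) ∧
    ∃ S : Finset (V d), S.card = m ∧ ∀ z ∈ S, z ∈ l ∧ s < w z}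

lemma meas_Ev (s : ℝ) (n m : ℕ) : MeasurableSet (Ev d s n m) := by
  have h : Ev d s n m = ⋃ l : List (V d), ⋃ S : Finset (V d),
      ({_w | l.length = n ∧ IsP (0 :: l) ∧ S.card = m ∧ ∀ z ∈ S, z ∈ l} ∩
        {w | ∀ z ∈ S, s < w z}) := by
    ext w
    simp only [Ev, Set.mem_iUnion, Set.mem_inter_iff, Set.mem_ofPred_eq]
    constructor
    · rintro ⟨l, h1, h2, S, h3, h4⟩
      exact ⟨l, S, ⟨h1, h2, h3, fun z hz => (h4 z hz).1⟩, fun z hz => (h4 z hz).2⟩
    · rintro ⟨l, S, ⟨h1, h2, h3, h4⟩, h5⟩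
      exact ⟨l, h1, h2, S, h3, fun z hz => ⟨h4 z hz, h5 z hz⟩⟩
  rw [h]
  refine MeasurableSet.iUnion fun l => MeasurableSet.iUnion fun S =>
    (MeasurableSet.const _).inter ?_
  have h2 : {w : V d → ℝ | ∀ z ∈ S, s < w z} = ⋂ z ∈ S, {w : V d → ℝ | s < w z} := by
    ext w
    simp
  rw [h2]
  exact Finset.measurableSet_biInter S fun z _ =>
    measurableSet_lt measurable_const (measurable_pi_apply z)

open scoped Classical in
lemma sum_filter (l : List (V d)) (P : V d → Prop) :
    (l.map fun z => if P z then (1 : ℝ≥0∞) else 0).sum =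
      ((l.filter (fun z => decide (P z))).length : ℝ≥0∞) := by
  induction l with
  | nil => simp
  | cons a l ih =>
    rw [List.map_cons, List.sum_cons, ih]
    by_cases h : P a
    · rw [if_pos h, List.filter_cons_of_pos (by simpa using h), List.length_cons]
      push_cast
      ring
    · rw [if_neg h, List.filter_cons_of_neg (by simpa using h), zero_add]

open scoped Classical in
/-- layers -/
lemma path_le {s : ℝ} {n m0 : ℕ} {l : List (V d)} (hl : l.length = n) (hP : IsP (0 :: l))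
    (w : V d → ℝ) : (l.map fun z => if s < w z then (1 : ℝ≥0∞) else 0).sum ≤
      m0 + ∑ m ∈ Ioc m0 n, (Ev d s n m).indicator 1 w := by
  rw [sum_filter]
  set F := l.filter (fun z => decide (s < w z)) with hF
  have hFn : F.length ≤ n := by
    rw [← hl]
    exact List.length_filter_le _ _
  have hnd : F.Nodup := ((List.nodup_cons.1 hP.2).2).filter _
  rcases le_or_gt F.length m0 with h | h
  · exact le_add_right (by exact_mod_cast h)
  · have h1 : ∀ m ∈ Ioc m0 F.length, (1 : ℝ≥0∞) ≤ (Ev d s n m).indicator 1 w := by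
      intro m hm
      rw [mem_Ioc] at hm
      have h2 : w ∈ Ev d s n m := by
        obtain ⟨S, hS, hSm⟩ := Finset.exists_subset_card_eq (s := F.toFinset) (n := m)
          (by rw [List.toFinset_card_of_nodup hnd]; exact hm.2)
        refine ⟨l, hl, hP, S, hSm, fun z hz => ?_⟩
        have h3 := hS hz
        rw [List.mem_toFinset, hF, List.mem_filter] at h3
        exact ⟨h3.1, by simpa using h3.2⟩
      rw [Set.indicator_of_mem h2]
      exact le_rfl
    have h2 : ((F.length - m0 : ℕ) : ℝ≥0∞) ≤ ∑ m ∈ Ioc m0 n, (Ev d s n m).indicator 1 w := by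
      calc ((F.length - m0 : ℕ) : ℝ≥0∞) = ∑ _m ∈ Ioc m0 F.length, (1 : ℝ≥0∞) := by
            rw [Finset.sum_const, Nat.card_Ioc, nsmul_eq_mul, mul_one]
        _ ≤ ∑ m ∈ Ioc m0 F.length, (Ev d s n m).indicator 1 w := Finset.sum_le_sum h1
        _ ≤ ∑ m ∈ Ioc m0 n, (Ev d s n m).indicator 1 w :=
            Finset.sum_le_sum_of_subset (Ioc_subset_Ioc_right hFn)
    calc (F.length : ℝ≥0∞) = (m0 : ℝ≥0∞) + ((F.length - m0 : ℕ) : ℝ≥0∞) := by
          rw [← Nat.cast_add, Nat.add_sub_cancel' h.le]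
      _ ≤ _ := by gcongr

open scoped Classical in
lemma supP_le (s : ℝ) (n m0 : ℕ) (w : V d → ℝ) :
    SupP (fun z : V d => if s < w z then 1 else 0) n ≤
      m0 + ∑ m ∈ Ioc m0 n, (Ev d s n m).indicator 1 w := by
  unfold SupP
  refine iSup_le fun l => ?_
  exact path_le l.2.1 l.2.2 w

open scoped Classical in
lemma supP_le' (s : ℝ) (n : ℕ) (w : V d → ℝ) :
    SupP (fun z : V d => if s < w z then 1 else 0) n ≤
      ∑ z ∈ box d n, ({w : V d → ℝ | s < w z}).indicator 1 w := by
  unfold SupP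
  refine iSup_le fun l => ?_
  obtain ⟨l, hl, hP⟩ := l
  simp only
  have hnd : l.Nodup := (List.nodup_cons.1 hP.2).2
  rw [← List.sum_toFinset _ hnd]
  have h1 : l.toFinset ⊆ box d n := by
    intro z hz
    rw [List.mem_toFinset] at hz
    rw [mem_box]
    have := nm_le_of_chain hP.1 z hz
    rwa [sub_zero, hl] at this
  refine (Finset.sum_le_sum_of_subset h1).trans (Finset.sum_le_sum fun z _ => ?_)
  by_cases h : s < w z
  · rw [if_pos h, Set.indicator_of_mem (show w ∈ {w : V d → ℝ | s < w z} from h)]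
    exact le_rfl
  · rw [if_neg h]
    exact bot_le

lemma exp_le (m : ℕ) : Real.exp (-(m : ℝ)) ≤ (1 / 2 : ℝ) ^ m := by
  have h1 : Real.exp (-1) ≤ 1 / 2 := by
    have h2 : (2 : ℝ) ≤ Real.exp 1 := by
      have := Real.add_one_le_exp (1 : ℝ)
      linarith
    rw [Real.exp_neg, one_div]
    exact inv_anti₀ (by norm_num) h2
  have h3 : Real.exp (-(m : ℝ)) = Real.exp (-1) ^ m := by
    rw [← Real.exp_nat_mul]
    congr 1
    ring
  rw [h3]
  exact pow_le_pow_left₀ (Real.exp_pos _).le h1 m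

theorem ge (hG : S_G) : S_GE := by
  classical
  intro d hd
  obtain ⟨C, hC, H⟩ := hG d hd
  refine ⟨2 * C + 3 + 3 ^ d, by positivity, ?_⟩
  intro ν _ s n hn
  obtain ⟨p, hp⟩ : ∃ p : ℝ, p = ν.real (Set.Ioi s) := ⟨_, rfl⟩
  obtain ⟨r, hr⟩ : ∃ r : ℝ, r = n * p ^ ((1 : ℝ) / d) := ⟨_, rfl⟩
  have hp0 : 0 ≤ p := by rw [hp]; exact measureReal_nonneg
  have hr0 : 0 ≤ r := by rw [hr]; positivity
  have hH := H ν s n
  rw [← hp, ← hr] at hH
  rw [← hp, ← hr]
  rcases le_or_gt 1 r with h1 | h1
  · -- many large weights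
    obtain ⟨m0, hm0⟩ : ∃ m0 : ℕ, m0 = ⌈C * (r + 1)⌉₊ := ⟨_, rfl⟩
    have hm0' : C * (r + 1) ≤ m0 := by rw [hm0]; exact Nat.le_ceil _
    have hm0u : (m0 : ℝ) ≤ C * (r + 1) + 1 := by
      rw [hm0]
      exact (Nat.ceil_lt_add_one (by positivity)).le
    have h2 : ∫⁻ w, SupP (fun z : V d => if s < w z then 1 else 0) n ∂law ν d ≤
        m0 + ∑ m ∈ Ioc m0 n, law ν d (Ev d s n m) := by
      refine (lintegral_mono fun w => supP_le s n m0 w).trans ?_
      have hprob : IsProbabilityMeasure (law ν d) := by unfold law; infer_instance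
      rw [lintegral_add_left measurable_const]
      have h3 : ∫⁻ w, ∑ m ∈ Ioc m0 n, (Ev d s n m).indicator 1 w ∂law ν d =
          ∑ m ∈ Ioc m0 n, law ν d (Ev d s n m) := by
        rw [lintegral_finsetSum' _ fun m _ =>
          (measurable_one.indicator (meas_Ev s n m)).aemeasurable]
        exact Finset.sum_congr rfl fun m _ => lintegral_indicator_one (meas_Ev s n m)
      rw [h3]
      simp
    refine h2.trans ?_
    have h3 : ∀ m ∈ Ioc m0 n, law ν d (Ev d s n m) ≤ ENNReal.ofReal ((1 / 2 : ℝ) ^ m) := by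
      intro m hm
      rw [mem_Ioc] at hm
      have h4 : C * (r + 1) ≤ m := hm0'.trans (by exact_mod_cast hm.1.le)
      exact (hH m hn h4).trans (ENNReal.ofReal_le_ofReal (exp_le m))
    have h5 : ∑ m ∈ Ioc m0 n, law ν d (Ev d s n m) ≤ ENNReal.ofReal 2 := by
      refine (Finset.sum_le_sum h3).trans ?_
      rw [← ENNReal.ofReal_sum_of_nonneg fun m _ => by positivity]
      refine ENNReal.ofReal_le_ofReal ?_
      have h6 : Ioc m0 n ⊆ range (n + 1) := by
        intro m hm
        rw [mem_Ioc] at hm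
        rw [mem_range]
        omega
      exact (Finset.sum_le_sum_of_subset_of_nonneg h6 fun m _ _ => by positivity).trans
        (sum_geometric_two_le (n + 1))
    have h6 : (m0 : ℝ≥0∞) = ENNReal.ofReal m0 := (ENNReal.ofReal_natCast m0).symm
    rw [h6]
    refine (add_le_add_right h5 _).trans ?_
    rw [← ENNReal.ofReal_add (Nat.cast_nonneg _) (by norm_num)]
    refine ENNReal.ofReal_le_ofReal ?_
    have h7 : (0 : ℝ) ≤ 3 ^ d * r := by positivity
    nlinarith
  · -- few large weights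
    have h2 : ∫⁻ w, SupP (fun z : V d => if s < w z then 1 else 0) n ∂law ν d ≤
        (2 * n + 1) ^ d * ν (Set.Ioi s) := by
      refine (lintegral_mono fun w => supP_le' s n w).trans ?_
      have hm : ∀ z : V d, MeasurableSet {w : V d → ℝ | s < w z} := fun z =>
        measurableSet_lt measurable_const (measurable_pi_apply z)
      rw [lintegral_finsetSum' _ fun z _ => (measurable_one.indicator (hm z)).aemeasurable]
      have h3 : ∀ z ∈ box d n, ∫⁻ w, ({w : V d → ℝ | s < w z}).indicator 1 w ∂law ν d =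
          ν (Set.Ioi s) := by
        intro z _
        rw [lintegral_indicator_one (hm z)]
        exact law_eval ν z measurableSet_Ioi
      rw [Finset.sum_congr rfl h3, Finset.sum_const, card_box, nsmul_eq_mul]
      push_cast
      exact le_rfl
    refine h2.trans ?_
    have h4 : ν (Set.Ioi s) = ENNReal.ofReal p := by
      rw [hp]
      exact (ofReal_measureReal (measure_ne_top ν _)).symm
    have h5 : ((2 * n + 1 : ℝ≥0∞)) ^ d = ENNReal.ofReal ((2 * n + 1 : ℝ) ^ d) := by
      rw [ENNReal.ofReal_pow (by positivity), ENNReal.ofReal_add (by positivity) (by norm_num),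
        ENNReal.ofReal_mul (by norm_num)]
      simp
    rw [h4, h5, ← ENNReal.ofReal_mul (by positivity)]
    refine ENNReal.ofReal_le_ofReal ?_
    have hd0 : (d : ℝ) ≠ 0 := by
      have : 0 < d := hd
      positivity
    have hn1 : (1 : ℝ) ≤ n := by exact_mod_cast hn
    have h6 : r ^ d = n ^ d * p := by
      rw [hr, mul_pow, ← Real.rpow_natCast (p ^ ((1 : ℝ) / d)), ← Real.rpow_mul hp0,
        one_div_mul_cancel hd0, Real.rpow_one]
    have h7 : (2 * n + 1 : ℝ) ^ d ≤ 3 ^ d * n ^ d := by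
      rw [← mul_pow]
      exact pow_le_pow_left₀ (by positivity) (by linarith) d
    have h8 : r ^ d ≤ r := by
      obtain ⟨e, rfl⟩ : ∃ e, d = e + 1 := ⟨d - 1, by omega⟩
      rw [pow_succ]
      have : r ^ e ≤ 1 := pow_le_one₀ hr0 h1.le
      nlinarith
    calc (2 * n + 1 : ℝ) ^ d * p ≤ 3 ^ d * n ^ d * p := mul_le_mul_of_nonneg_right h7 hp0
      _ = 3 ^ d * r ^ d := by rw [h6]; ring
      _ ≤ 3 ^ d * r := mul_le_mul_of_nonneg_left h8 (by positivity)
      _ ≤ (2 * C + 3 + 3 ^ d) * r := by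
          have : 0 ≤ (2 * C + 3) * r := by positivity
          linarith

end Pool.Agent.W45.GQ
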